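import Mathlib
import Pool.Agent.H785R2.ABC.Defs

/-! Tuples with sum zero and small radicals: the construction (job NT2-LOWN, for helper594). -/

set_option autoImplicit false

namespace Pool.Agent.Y500.NT2

open Finset Pool.Agent.H785R2.ABC

theorem rad_le {n : ℕ} (hn : 1 ≤ n) : rad n ≤ n :=
  Nat.le_of_dvd hn (Nat.prod_primeFactors_dvd n)

theorem rad_two_pow (j y : ℕ) (hy : 1 ≤ y) : rad (2 ^ j * y) ≤ 2 * y := by
  have h1 : (2 ^ j * y).primeFactors ⊆ (2 * y).primeFactors := by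
    intro p hp
    rw [Nat.mem_primeFactors] at hp ⊢
    refine ⟨hp.1, ?_, by omega⟩
    rcases (Nat.Prime.dvd_mul hp.1).1 hp.2.1 with h | h
    · exact Dvd.dvd.mul_right (hp.1.dvd_of_dvd_pow h) y
    · exact Dvd.dvd.mul_left h 2
  have h2 : rad (2 ^ j * y) ∣ rad (2 * y) := Finset.prod_dvd_prod_of_subset _ _ _ h1
  have h3 : rad (2 * y) ≤ 2 * y := rad_le (by omega)
  exact (Nat.le_of_dvd (Finset.prod_pos fun p hp => (Nat.prime_of_mem_primeFactors hp).pos)
    h2).trans h3

/-- the positive coordinates -/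
def ff (k j y p : ℕ) (w : Fin k → ℕ) : Fin (k + 2) → ℕ := Fin.cons (2 ^ j * y) (Fin.cons p w)

/-- the tuple -/
def gg (k : ℕ) (f : Fin (k + 2) → ℕ) : Fin (k + 3) → ℤ :=
  Fin.snoc (α := fun _ => ℤ) (fun i => (f i : ℤ)) (-((∑ i, f i : ℕ) : ℤ))

theorem gg_cs (k : ℕ) (f : Fin (k + 2) → ℕ) (i : Fin (k + 2)) : gg k f i.castSucc = f i := by
  unfold gg; rw [Fin.snoc_castSucc]

theorem gg_last (k : ℕ) (f : Fin (k + 2) → ℕ) :
    gg k f (Fin.last (k + 2)) = -((∑ i, f i : ℕ) : ℤ) := by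
  unfold gg; rw [Fin.snoc_last]

theorem gg_inj (k : ℕ) : Function.Injective (gg k) := by
  intro f f' h
  funext i
  have := congrFun h i.castSucc
  rw [gg_cs, gg_cs] at this
  exact_mod_cast this

theorem ff_inj (k j : ℕ) {y p y' p' : ℕ} {w w' : Fin k → ℕ}
    (h : ff k j y p w = ff k j y' p' w') : y = y' ∧ p = p' ∧ w = w' := by
  unfold ff at h
  rw [Fin.cons_inj, Fin.cons_inj] at h
  exact ⟨Nat.eq_of_mul_eq_mul_left (by positivity) h.1, h.2.1, h.2.2⟩

theorem comb (k j Y N K : ℕ) (hY : 1 ≤ Y)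
    (hK : ∀ y ∈ Ico Y (2 * Y), K ≤ ((Icc 1 N).filter fun p => p.Prime ∧ ¬ p ∣ 2 * y).card) :
    ∃ T : Finset (Fin (k + 3) → ℤ),
      (∀ z ∈ T, univ.gcd z = 1 ∧ ∑ i, z i = 0 ∧ (∀ j : Fin (k + 2), 0 < z j.castSucc) ∧
        ∏ i, rad (z i).natAbs ≤ (4 * Y) * N ^ (k + 1) * (2 ^ j * (2 * Y) + (k + 1) * N) ∧
        (∃ i, 2 ^ j * Y ≤ (z i).natAbs) ∧
        ∀ i, (z i).natAbs ≤ 2 ^ j * (2 * Y) + (k + 1) * N) ∧
      Y * K * N ^ k ≤ T.card := by
  classical
  set S : Finset ((Σ _ : ℕ, ℕ) × (Fin k → ℕ)) :=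
    ((Ico Y (2 * Y)).sigma fun y => (Icc 1 N).filter fun p => p.Prime ∧ ¬ p ∣ 2 * y) ×ˢ
      (Fintype.piFinset fun _ : Fin k => Icc 1 N) with hS
  set Φ : ((Σ _ : ℕ, ℕ) × (Fin k → ℕ)) → (Fin (k + 3) → ℤ) :=
    fun t => gg k (ff k j t.1.1 t.1.2 t.2) with hΦ
  have hinj : Function.Injective Φ := by
    rintro ⟨⟨y, p⟩, w⟩ ⟨⟨y', p'⟩, w'⟩ h
    obtain ⟨h1, h2, h3⟩ := ff_inj k j (gg_inj k h)
    dsimp at h1 h2 h3
    subst h1 h2 h3
    rfl
  refine ⟨S.image Φ, ?_, ?_⟩
  · intro z hz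
    obtain ⟨⟨⟨y, p⟩, w⟩, ht, rfl⟩ := Finset.mem_image.1 hz
    rw [hS, Finset.mem_product, Finset.mem_sigma, Fintype.mem_piFinset] at ht
    obtain ⟨⟨hy, hp⟩, hw⟩ := ht
    dsimp only at hy hp hw
    rw [Finset.mem_Ico] at hy
    rw [Finset.mem_filter, Finset.mem_Icc] at hp
    obtain ⟨⟨hp1, hpN⟩, hpp, hpy⟩ := hp
    have hw' : ∀ i, 1 ≤ w i ∧ w i ≤ N := fun i => Finset.mem_Icc.1 (hw i)
    set f := ff k j y p w with hf
    have f0 : f 0 = 2 ^ j * y := rfl
    have f1 : f 1 = p := rfl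
    have fs : ∀ i : Fin k, f i.succ.succ = w i := fun i => rfl
    have hpos : ∀ i, 1 ≤ f i := by
      intro i
      refine Fin.cases ?_ (fun i => ?_) i
      · rw [f0]; exact Nat.mul_pos (by positivity) (by omega)
      · refine Fin.cases ?_ (fun i => ?_) i
        · exact hp1
        · rw [fs]; exact (hw' i).1
    have hsum : ∑ i, f i = 2 ^ j * y + (p + ∑ i : Fin k, w i) := by
      rw [Fin.sum_univ_succ, Fin.sum_univ_succ]; rfl
    have hwsum : ∑ i : Fin k, w i ≤ k * N := by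
      calc ∑ i : Fin k, w i ≤ ∑ _i : Fin k, N := Finset.sum_le_sum fun i _ => (hw' i).2
        _ = k * N := by simp
    have hb1 : 2 ^ j * y ≤ 2 ^ j * (2 * Y) := Nat.mul_le_mul_left _ (by omega)
    have hsumle : ∑ i, f i ≤ 2 ^ j * (2 * Y) + (k + 1) * N := by
      rw [hsum]
      have : (k + 1) * N = N + k * N := by ring
      omega
    have hgg : Φ ⟨⟨y, p⟩, w⟩ = gg k f := rfl
    rw [hgg]
    refine ⟨?_, ?_, ?_, ?_, ?_, ?_⟩
    · -- gcd
      set d := univ.gcd (gg k f) with hd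
      have d0 : d ∣ ((2 ^ j * y : ℕ) : ℤ) := by
        have := Finset.gcd_dvd (f := gg k f) (Finset.mem_univ ((0 : Fin (k + 2)).castSucc))
        rw [gg_cs, f0] at this
        exact this
      have d1 : d ∣ ((p : ℕ) : ℤ) := by
        have := Finset.gcd_dvd (f := gg k f) (Finset.mem_univ ((1 : Fin (k + 2)).castSucc))
        rw [gg_cs, f1] at this
        exact this
      have hcop : Nat.Coprime (2 ^ j * y) p := by
        refine Nat.Coprime.symm ((Nat.Prime.coprime_iff_not_dvd hpp).2 fun h => hpy ?_)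
        rcases (Nat.Prime.dvd_mul hpp).1 h with h | h
        · exact Dvd.dvd.mul_right (hpp.dvd_of_dvd_pow h) y
        · exact Dvd.dvd.mul_left h 2
      have hu : IsUnit d := by
        have h1 : IsCoprime ((2 ^ j * y : ℕ) : ℤ) ((p : ℕ) : ℤ) := Nat.isCoprime_iff_coprime.2 hcop
        exact h1.isUnit_of_dvd' d0 d1
      have h2 : normalize d = d := Finset.normalize_gcd
      rw [← h2]
      exact normalize_eq_one.2 hu
    · rw [Fin.sum_univ_castSucc]
      simp only [gg_cs]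
      rw [show Fin.last (k + 2) = Fin.last (k + 2) from rfl, gg_last]
      push_cast
      ring
    · intro i
      rw [gg_cs]
      exact_mod_cast hpos i
    · rw [Fin.prod_univ_castSucc]
      simp only [gg_cs]
      rw [gg_last, Int.natAbs_neg, Int.natAbs_natCast]
      simp only [Int.natAbs_natCast]
      have h1 : ∏ i, rad (f i) ≤ (4 * Y) * N ^ (k + 1) := by
        rw [Fin.prod_univ_succ, Fin.prod_univ_succ]
        have e0 : rad (f 0) ≤ 4 * Y := by
          rw [f0]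
          exact (rad_two_pow j y (by omega)).trans (by omega)
        have e1 : rad (f (Fin.succ 0)) ≤ N := (rad_le hp1).trans hpN
        have e2 : ∏ i : Fin k, rad (f i.succ.succ) ≤ N ^ k := by
          calc ∏ i : Fin k, rad (f i.succ.succ) ≤ ∏ _i : Fin k, N :=
                Finset.prod_le_prod' fun i _ => (rad_le (hw' i).1).trans (hw' i).2
            _ = N ^ k := by simp
        calc rad (f 0) * (rad (f (Fin.succ 0)) * ∏ i : Fin k, rad (f i.succ.succ)) ≤
              (4 * Y) * (N * N ^ k) := Nat.mul_le_mul e0 (Nat.mul_le_mul e1 e2)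
          _ = _ := by ring
      refine Nat.mul_le_mul h1 ?_
      refine (rad_le ?_).trans hsumle
      exact (hpos 0).trans (Finset.single_le_sum (fun i _ => Nat.zero_le _) (Finset.mem_univ 0))
    · refine ⟨(0 : Fin (k + 2)).castSucc, ?_⟩
      rw [gg_cs, Int.natAbs_natCast, f0]
      exact Nat.mul_le_mul_left _ hy.1
    · intro i
      refine Fin.lastCases ?_ (fun i => ?_) i
      · rw [gg_last, Int.natAbs_neg, Int.natAbs_natCast]
        exact hsumle
      · rw [gg_cs, Int.natAbs_natCast]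
        exact (Finset.single_le_sum (f := f) (fun i _ => Nat.zero_le _)
          (Finset.mem_univ i)).trans hsumle
  · rw [Finset.card_image_of_injective _ hinj, hS, Finset.card_product, Finset.card_sigma]
    have h1 : Y * K ≤ ∑ y ∈ Ico Y (2 * Y),
        ((Icc 1 N).filter fun p => p.Prime ∧ ¬ p ∣ 2 * y).card := by
      calc Y * K = ∑ _y ∈ Ico Y (2 * Y), K := by
            rw [Finset.sum_const, Nat.card_Ico, smul_eq_mul]
            congr 1; omega
        _ ≤ _ := Finset.sum_le_sum hK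
    have h2 : (Fintype.piFinset fun _ : Fin k => Icc 1 N).card = N ^ k := by
      rw [Fintype.card_piFinset]; simp
    rw [h2]
    exact Nat.mul_le_mul_right _ h1

/-- the number of primes that do not divide a given number -/
theorem primes_ge (N r : ℕ) (hr : 1 ≤ r) :
    N.primeCounting ≤ ((Icc 1 N).filter fun p => p.Prime ∧ ¬ p ∣ r).card + Nat.log 2 r := by
  classical
  have h1 : N.primeCounting = ((Icc 1 N).filter fun p => p.Prime).card := by
    rw [Nat.primeCounting, Nat.primeCounting', Nat.count_eq_card_filter_range]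
    congr 1
    ext p
    simp only [Finset.mem_filter, Finset.mem_range, Finset.mem_Icc]
    constructor
    · rintro ⟨h, hp⟩; exact ⟨⟨hp.one_lt.le, by omega⟩, hp⟩
    · rintro ⟨⟨_, h⟩, hp⟩; exact ⟨by omega, hp⟩
  have h2 : ((Icc 1 N).filter fun p => p.Prime) ⊆
      ((Icc 1 N).filter fun p => p.Prime ∧ ¬ p ∣ r) ∪ r.primeFactors := by
    intro p hp
    rw [Finset.mem_filter] at hp
    rw [Finset.mem_union, Finset.mem_filter, Nat.mem_primeFactors]
    by_cases h : p ∣ r
    · right; exact ⟨hp.2, h, by omega⟩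
    · left; exact ⟨hp.1, hp.2, h⟩
  have h3 : r.primeFactors.card ≤ Nat.log 2 r := by
    apply Nat.le_log_of_pow_le (by norm_num)
    calc 2 ^ r.primeFactors.card = ∏ _p ∈ r.primeFactors, 2 := by rw [Finset.prod_const]
      _ ≤ ∏ p ∈ r.primeFactors, p :=
          Finset.prod_le_prod' fun p hp => (Nat.prime_of_mem_primeFactors hp).two_le
      _ ≤ r := rad_le hr
  rw [h1]
  exact (Finset.card_le_card h2).trans ((Finset.card_union_le _ _).trans (by omega))

end Pool.Agent.Y500.NT2
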